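import Pool.Agent.Y346.PA.Stm
import Pool.Agent.H951R4.OD.B6
import Pool.Agent.H951R4.OD.M

/-!
# Mertens sums modulo `12` and `3`, and the eighth moment of `x / φ(x)`
-/

set_option autoImplicit false

namespace Pool.Agent.Y577.PA

open Finset
open Pool.Agent.H951R4.OD (ch PI char_sum_fixed mert_int)
open scoped Classical NumberTheorySymbols

theorem ch_odd {D : ℤ} {n : ℕ} (h : n % 2 = 1) : ch D n = ((jacobiSym D n : ℤ) : ℝ) := by
  rw [ch, if_pos h]

theorem vals {p r : ℕ} (h : p % 12 = r) (hr : r % 2 = 1) :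
    ch (-1) p = ((jacobiSym (-1) (r % 4) : ℤ) : ℝ) ∧ ch (-3) p = ((jacobiSym (-3) r : ℤ) : ℝ) ∧
      ch 3 p = ((jacobiSym 3 r : ℤ) : ℝ) := by
  have h1 : p % 2 = 1 := by omega
  have ho : Odd p := Nat.odd_iff.2 h1
  rw [ch_odd h1, ch_odd h1, ch_odd h1, jacobiSym.mod_right (-1) ho, jacobiSym.mod_right (-3) ho,
    jacobiSym.mod_right 3 ho]
  have e1 : p % (4 * (-1 : ℤ).natAbs) = r % 4 := by
    simp only [Int.reduceNeg, Int.natAbs_neg, Int.natAbs_one, mul_one]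
    omega
  have e2 : p % (4 * (-3 : ℤ).natAbs) = r := h
  have e3 : p % (4 * (3 : ℤ).natAbs) = r := h
  rw [e1, e2, e3]
  exact ⟨rfl, rfl, rfl⟩

theorem val1 {p : ℕ} (h : p % 12 = 1) : ch (-1) p = 1 ∧ ch (-3) p = 1 ∧ ch 3 p = 1 := by
  have := vals h (by norm_num)
  norm_num at this
  exact this

theorem val5 {p : ℕ} (h : p % 12 = 5) : ch (-1) p = 1 ∧ ch (-3) p = -1 ∧ ch 3 p = -1 := by
  have := vals h (by norm_num)
  norm_num at this
  exact this

theorem val7 {p : ℕ} (h : p % 12 = 7) : ch (-1) p = -1 ∧ ch (-3) p = 1 ∧ ch 3 p = -1 := by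
  have := vals h (by norm_num)
  norm_num at this
  exact this

theorem val11 {p : ℕ} (h : p % 12 = 11) : ch (-1) p = -1 ∧ ch (-3) p = -1 ∧ ch 3 p = 1 := by
  have := vals h (by norm_num)
  norm_num at this
  exact this

theorem prime_mod {p : ℕ} (hp : p.Prime) (h3 : 3 < p) :
    p % 12 = 1 ∨ p % 12 = 5 ∨ p % 12 = 7 ∨ p % 12 = 11 := by
  have h2 : ¬ 2 ∣ p := fun h => by
    have := (Nat.prime_dvd_prime_iff_eq Nat.prime_two hp).1 h
    omega
  have h3' : ¬ 3 ∣ p := fun h => by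
    have := (Nat.prime_dvd_prime_iff_eq Nat.prime_three hp).1 h
    omega
  omega

theorem abs_ch_le (D : ℤ) (n : ℕ) : |ch D n| ≤ 1 := by
  unfold ch
  split_ifs
  · rcases jacobiSym.trichotomy D n with h | h | h <;> simp [h]
  · simp

/-- The error function. -/
noncomputable def er (p : ℕ) : ℝ := if p ≤ 3 then 8 else 0

theorem sum_er (y z : ℕ) : ∑ p ∈ PI y z, er p ≤ 24 := by
  unfold er
  rw [← sum_filter, sum_const, nsmul_eq_mul]
  have h : ((PI y z).filter (fun p => p ≤ 3)).card ≤ 3 := by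
    calc ((PI y z).filter (fun p => p ≤ 3)).card ≤ (Ioc 0 3).card := by
          refine card_le_card fun p hp => ?_
          simp only [PI, mem_filter, mem_Ioc] at hp ⊢
          exact ⟨hp.1.2.pos, hp.2⟩
      _ = 3 := by simp
  have : ((((PI y z).filter (fun p => p ≤ 3)).card : ℕ) : ℝ) ≤ 3 := by exact_mod_cast h
  linarith

theorem small_le {p : ℕ} (hp : p.Prime) (a b c : ℝ) (ha : |a| ≤ 1) (hb : |b| ≤ 1) (hc : |c| ≤ 1)
    (x : ℝ) (hx : 0 ≤ x) : (1 + a + b + c) / p - 8 ≤ x := by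
  rw [abs_le] at ha hb hc
  have h2 : (2 : ℝ) ≤ p := by exact_mod_cast hp.two_le
  have : (1 + a + b + c) / p ≤ 4 := by
    rw [div_le_iff₀ (by linarith)]
    nlinarith
  linarith

theorem term_nonneg (P : Prop) [Decidable P] (p : ℕ) : (0 : ℝ) ≤ if P then 4 / (p : ℝ) else 0 := by
  split_ifs
  · positivity
  · exact le_rfl

theorem t1 {p : ℕ} (hp : p.Prime) :
    (1 + ch (-1) p + ch (-3) p + ch 3 p) / p - er p ≤ if p % 12 = 1 then 4 / (p : ℝ) else 0 := by
  unfold er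
  split_ifs with h1 h2 h2
  · exact small_le hp _ _ _ (abs_ch_le _ _) (abs_ch_le _ _) (abs_ch_le _ _) _ (by positivity)
  · exact small_le hp _ _ _ (abs_ch_le _ _) (abs_ch_le _ _) (abs_ch_le _ _) _ le_rfl
  · obtain ⟨e1, e2, e3⟩ := val1 h2
    rw [e1, e2, e3]
    norm_num
  · rcases prime_mod hp (by omega) with h | h | h | h
    · exact absurd h h2
    · obtain ⟨e1, e2, e3⟩ := val5 h
      rw [e1, e2, e3]; norm_num
    · obtain ⟨e1, e2, e3⟩ := val7 h
      rw [e1, e2, e3]; norm_num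
    · obtain ⟨e1, e2, e3⟩ := val11 h
      rw [e1, e2, e3]; norm_num

theorem t5 {p : ℕ} (hp : p.Prime) :
    (1 + ch (-1) p + -ch (-3) p + -ch 3 p) / p - er p ≤
      if p % 12 = 5 then 4 / (p : ℝ) else 0 := by
  unfold er
  split_ifs with h1 h2 h2
  · exact small_le hp _ _ _ (abs_ch_le _ _) (by rw [abs_neg]; exact abs_ch_le _ _)
      (by rw [abs_neg]; exact abs_ch_le _ _) _ (by positivity)
  · exact small_le hp _ _ _ (abs_ch_le _ _) (by rw [abs_neg]; exact abs_ch_le _ _)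
      (by rw [abs_neg]; exact abs_ch_le _ _) _ le_rfl
  · obtain ⟨e1, e2, e3⟩ := val5 h2
    rw [e1, e2, e3]
    norm_num
  · rcases prime_mod hp (by omega) with h | h | h | h
    · obtain ⟨e1, e2, e3⟩ := val1 h
      rw [e1, e2, e3]; norm_num
    · exact absurd h h2
    · obtain ⟨e1, e2, e3⟩ := val7 h
      rw [e1, e2, e3]; norm_num
    · obtain ⟨e1, e2, e3⟩ := val11 h
      rw [e1, e2, e3]; norm_num

theorem t3 {p : ℕ} (hp : p.Prime) :
    (1 + 1 + ch (-3) p + ch (-3) p) / p - er p ≤ if p % 3 = 1 then 4 / (p : ℝ) else 0 := by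
  unfold er
  split_ifs with h1 h2 h2
  · exact small_le hp _ _ _ (by norm_num) (abs_ch_le _ _) (abs_ch_le _ _) _ (by positivity)
  · exact small_le hp _ _ _ (by norm_num) (abs_ch_le _ _) (abs_ch_le _ _) _ le_rfl
  · rcases prime_mod hp (by omega) with h | h | h | h
    · obtain ⟨e1, e2, e3⟩ := val1 h
      rw [e2]; norm_num
    · omega
    · obtain ⟨e1, e2, e3⟩ := val7 h
      rw [e2]; norm_num
    · omega
  · rcases prime_mod hp (by omega) with h | h | h | h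
    · omega
    · obtain ⟨e1, e2, e3⟩ := val5 h
      rw [e2]; norm_num
    · omega
    · obtain ⟨e1, e2, e3⟩ := val11 h
      rw [e2]; norm_num

theorem sum_lower (y z : ℕ) (P : ℕ → Prop) [DecidablePred P] (F : ℕ → ℝ)
    (h : ∀ p : ℕ, p.Prime → F p / p - er p ≤ if P p then 4 / (p : ℝ) else 0) :
    ∑ p ∈ PI y z, F p / p - 24 ≤ ∑ p ∈ (PI y z).filter P, 4 / (p : ℝ) := by
  rw [sum_filter]
  have h1 : ∑ p ∈ PI y z, (F p / p - er p) ≤ ∑ p ∈ PI y z, if P p then 4 / (p : ℝ) else 0 :=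
    sum_le_sum fun p hp => h p (mem_filter.1 hp).2
  rw [sum_sub_distrib] at h1
  have := sum_er y z
  linarith

/-- Task MM. -/
theorem t_MM : Pool.Agent.Y346.PA.S_MM := by
  obtain ⟨C0, hC0, h0⟩ := mert_int
  obtain ⟨C1, hC1, h1⟩ := char_sum_fixed (-1) (by
    rintro ⟨a, ha⟩
    nlinarith [mul_self_nonneg a])
  obtain ⟨C2, hC2, h2⟩ := char_sum_fixed (-3) (by
    rintro ⟨a, ha⟩
    nlinarith [mul_self_nonneg a])
  obtain ⟨C3, hC3, h3⟩ := char_sum_fixed 3 (by
    rintro ⟨a, ha⟩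
    have h1 : a.natAbs * a.natAbs = 3 := by
      rw [← Int.natAbs_mul, ← ha]; rfl
    have h2 : a.natAbs ≤ 3 := by nlinarith
    interval_cases a.natAbs <;> omega)
  refine ⟨2 * C0 + C1 + 2 * C2 + C3 + 25, by positivity, fun y z hy hz => ?_⟩
  have g0 := abs_le.1 (h0 y z hy hz)
  have g1 := abs_le.1 (h1 y z)
  have g2 := abs_le.1 (h2 y z)
  have g3 := abs_le.1 (h3 y z)
  refine ⟨?_, ?_, ?_⟩
  · have h := sum_lower y z (fun p => p % 12 = 1) _ (fun p hp => t1 hp)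
    have e : ∑ p ∈ PI y z, (1 + ch (-1) p + ch (-3) p + ch 3 p) / (p : ℝ) =
        ∑ p ∈ PI y z, (1 : ℝ) / p + ∑ p ∈ PI y z, ch (-1) p / p + ∑ p ∈ PI y z, ch (-3) p / p +
          ∑ p ∈ PI y z, ch 3 p / p := by
      rw [← sum_add_distrib, ← sum_add_distrib, ← sum_add_distrib]
      exact sum_congr rfl fun p _ => by ring
    rw [e] at h
    linarith
  · have h := sum_lower y z (fun p => p % 12 = 5) _ (fun p hp => t5 hp)
    have e : ∑ p ∈ PI y z, (1 + ch (-1) p + -ch (-3) p + -ch 3 p) / (p : ℝ) =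
        ∑ p ∈ PI y z, (1 : ℝ) / p + ∑ p ∈ PI y z, ch (-1) p / p - ∑ p ∈ PI y z, ch (-3) p / p -
          ∑ p ∈ PI y z, ch 3 p / p := by
      rw [← sum_add_distrib, ← sum_sub_distrib, ← sum_sub_distrib]
      exact sum_congr rfl fun p _ => by ring
    rw [e] at h
    linarith
  · have h := sum_lower y z (fun p => p % 3 = 1) _ (fun p hp => t3 hp)
    have e : ∑ p ∈ PI y z, (1 + 1 + ch (-3) p + ch (-3) p) / (p : ℝ) =
        2 * ∑ p ∈ PI y z, (1 : ℝ) / p + 2 * ∑ p ∈ PI y z, ch (-3) p / p := by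
      rw [mul_sum, mul_sum, ← sum_add_distrib]
      exact sum_congr rfl fun p _ => by ring
    rw [e] at h
    linarith

end Pool.Agent.Y577.PA
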