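import Pool.Agent.Y577.PA.MM

/-!
# The eighth moment of `x / φ(x)`
-/

set_option autoImplicit false

namespace Pool.Agent.Y577.PA

open Finset
open scoped Classical

/-- `(1 - 1/p)^(-8) - 1` -/
noncomputable def hh (p : ℕ) : ℝ := ((1 - (p : ℝ)⁻¹)⁻¹) ^ 8 - 1

theorem hh_nonneg {p : ℕ} (hp : p.Prime) : 0 ≤ hh p := by
  have h2 : (2 : ℝ) ≤ p := by exact_mod_cast hp.two_le
  have h3 : (p : ℝ)⁻¹ ≤ 1 / 2 := by
    rw [inv_le_comm₀ (by linarith) (by norm_num)]
    linarith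
  have h4 : 0 < (p : ℝ)⁻¹ := by positivity
  have h5 : 1 ≤ (1 - (p : ℝ)⁻¹)⁻¹ := by
    rw [one_le_inv₀ (by linarith)]
    linarith
  have := one_le_pow₀ (n := 8) h5
  unfold hh
  linarith

theorem hh_le {p : ℕ} (hp : p.Prime) : hh p ≤ 510 / p := by
  have h2 : (2 : ℝ) ≤ p := by exact_mod_cast hp.two_le
  set v : ℝ := 1 / ((p : ℝ) - 1) with hv
  have hv0 : 0 < v := by
    rw [hv]
    apply div_pos one_pos
    linarith
  have hv1 : v ≤ 1 := by
    rw [hv, div_le_one (by linarith)]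
    linarith
  have e : (1 - (p : ℝ)⁻¹)⁻¹ = 1 + v := by
    rw [hv]
    have : (p : ℝ) - 1 ≠ 0 := by linarith
    field_simp
    ring
  have hv2 : v ≤ 2 / p := by
    rw [hv, div_le_div_iff₀ (by linarith) (by linarith)]
    linarith
  unfold hh
  rw [e]
  have h : (1 + v) ^ 8 - 1 ≤ 255 * v := by
    have h1 : ∀ k : ℕ, v ^ (k + 1) ≤ v := fun k => by
      rw [pow_succ]
      have := pow_le_one₀ (n := k) hv0.le hv1
      nlinarith
    have a2 := h1 1
    have a3 := h1 2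
    have a4 := h1 3
    have a5 := h1 4
    have a6 := h1 5
    have a7 := h1 6
    have a8 := h1 7
    norm_num at a2 a3 a4 a5 a6 a7 a8
    have e2 : (1 + v) ^ 8 - 1 = 8 * v + 28 * v ^ 2 + 56 * v ^ 3 + 70 * v ^ 4 + 56 * v ^ 5 +
        28 * v ^ 6 + 8 * v ^ 7 + v ^ 8 := by ring
    rw [e2]
    linarith
  calc (1 + v) ^ 8 - 1 ≤ 255 * v := h
    _ ≤ 255 * (2 / p) := by linarith
    _ = 510 / p := by ring

theorem ratio_eq {x : ℕ} (hx : 0 < x) :
    ((x : ℝ) / x.totient) ^ 8 = ∏ p ∈ x.primeFactors, (1 + hh p) := by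
  have h1 : (x.totient : ℝ) = x * ∏ p ∈ x.primeFactors, (1 - (p : ℝ)⁻¹) := by
    have := Nat.totient_eq_mul_prod_factors x
    have h2 : ((x.totient : ℚ) : ℝ) = ((x * ∏ p ∈ x.primeFactors, (1 - (p : ℚ)⁻¹) : ℚ) : ℝ) := by
      rw [this]
    push_cast at h2
    exact h2
  have hx' : (x : ℝ) ≠ 0 := by positivity
  have h3 : (x : ℝ) / x.totient = ∏ p ∈ x.primeFactors, (1 - (p : ℝ)⁻¹)⁻¹ := by
    rw [h1, prod_inv_distrib, div_mul_eq_div_div, div_self hx', one_div]
  rw [h3, ← prod_pow]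
  refine prod_congr rfl fun p _ => ?_
  unfold hh
  ring

/-- The primes up to `T`. -/
noncomputable def PP (T : ℕ) : Finset ℕ := (Icc 1 T).filter Nat.Prime

theorem count_le {T : ℕ} {U : Finset ℕ} (hU : U ⊆ PP T) :
    ((((Icc 1 T).filter fun x => U ⊆ x.primeFactors).card : ℕ) : ℝ) ≤ T / ∏ p ∈ U, (p : ℝ) := by
  have hp : ∀ p ∈ U, p.Prime := fun p h => (mem_filter.1 (hU h)).2
  have hpos : 0 < ∏ p ∈ U, p := prod_pos fun p h => (hp p h).pos
  have h1 : ((Icc 1 T).filter fun x => U ⊆ x.primeFactors) ⊆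
      (Ioc 0 T).filter fun x => (∏ p ∈ U, p) ∣ x := by
    intro x hx
    rw [mem_filter, mem_Icc] at hx
    rw [mem_filter, mem_Ioc]
    refine ⟨⟨by omega, hx.1.2⟩, ?_⟩
    exact Finset.prod_primes_dvd x (fun p h => (hp p h).prime)
      fun p h => Nat.dvd_of_mem_primeFactors (hx.2 h)
  have h2 := card_le_card h1
  rw [Nat.Ioc_filter_dvd_card_eq_div] at h2
  have h3 : (((T / ∏ p ∈ U, p : ℕ)) : ℝ) ≤ T / ((∏ p ∈ U, p : ℕ) : ℝ) := Nat.cast_div_le
  rw [Nat.cast_prod] at h3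
  exact le_trans (by exact_mod_cast h2) h3

/-- Task SX. -/
theorem t_SX : Pool.Agent.Y346.PA.S_SX := by
  have hs : Summable fun n : ℕ => 510 / (n : ℝ) ^ 2 := by
    have := (Real.summable_one_div_nat_pow (p := 2)).2 (by norm_num)
    simpa [div_eq_mul_inv] using this.mul_left 510
  refine ⟨Real.exp (∑' n : ℕ, 510 / (n : ℝ) ^ 2), Real.exp_pos _, fun T => ?_⟩
  have hsub : ∀ x ∈ Icc 1 T, x.primeFactors ⊆ PP T := by
    intro x hx p hp
    rw [mem_Icc] at hx
    have h1 := Nat.prime_of_mem_primeFactors hp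
    rw [PP, mem_filter, mem_Icc]
    exact ⟨⟨h1.pos, (Nat.le_of_dvd (by omega) (Nat.dvd_of_mem_primeFactors hp)).trans hx.2⟩, h1⟩
  have hnn : ∀ U ∈ (PP T).powerset, 0 ≤ ∏ p ∈ U, hh p := fun U hU =>
    prod_nonneg fun p hp => hh_nonneg (mem_filter.1 (mem_powerset.1 hU hp)).2
  calc ∑ x ∈ Icc 1 T, ((x : ℝ) / x.totient) ^ 8
      = ∑ x ∈ Icc 1 T, ∑ U ∈ (PP T).powerset, if U ⊆ x.primeFactors then ∏ p ∈ U, hh p else 0 := by
        refine sum_congr rfl fun x hx => ?_
        rw [ratio_eq (by rw [mem_Icc] at hx; omega), prod_one_add, ← sum_filter]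
        refine sum_congr ?_ fun _ _ => rfl
        ext U
        rw [mem_filter, mem_powerset, mem_powerset]
        exact ⟨fun h => ⟨h.trans (hsub x hx), h⟩, fun h => h.2⟩
    _ = ∑ U ∈ (PP T).powerset, (∏ p ∈ U, hh p) *
          (((Icc 1 T).filter fun x => U ⊆ x.primeFactors).card : ℝ) := by
        rw [sum_comm]
        refine sum_congr rfl fun U _ => ?_
        rw [← sum_filter, sum_const, nsmul_eq_mul, mul_comm]
    _ ≤ ∑ U ∈ (PP T).powerset, (∏ p ∈ U, hh p) * (T / ∏ p ∈ U, (p : ℝ)) :=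
        sum_le_sum fun U hU => mul_le_mul_of_nonneg_left (count_le (mem_powerset.1 hU)) (hnn U hU)
    _ = T * ∏ p ∈ PP T, (1 + hh p / p) := by
        rw [prod_one_add, mul_sum]
        refine sum_congr rfl fun U _ => ?_
        rw [prod_div_distrib]
        ring
    _ ≤ T * Real.exp (∑' n : ℕ, 510 / (n : ℝ) ^ 2) := by
        refine mul_le_mul_of_nonneg_left ?_ (Nat.cast_nonneg _)
        calc ∏ p ∈ PP T, (1 + hh p / p) ≤ ∏ p ∈ PP T, Real.exp (510 / (p : ℝ) ^ 2) := by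
              refine prod_le_prod (fun p hp => ?_) fun p hp => ?_
              · have := hh_nonneg (mem_filter.1 hp).2
                positivity
              · have h1 := hh_le (mem_filter.1 hp).2
                have h2 : (0 : ℝ) < p := by exact_mod_cast (mem_filter.1 hp).2.pos
                have h3 : hh p / p ≤ 510 / (p : ℝ) ^ 2 := by
                  rw [pow_two, ← div_div]
                  exact div_le_div_of_nonneg_right h1 h2.le
                have := Real.add_one_le_exp (510 / (p : ℝ) ^ 2)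
                linarith
          _ = Real.exp (∑ p ∈ PP T, 510 / (p : ℝ) ^ 2) := (Real.exp_sum _ _).symm
          _ ≤ _ := Real.exp_le_exp.2 (hs.sum_le_tsum _ fun n _ => by positivity)
    _ = Real.exp (∑' n : ℕ, 510 / (n : ℝ) ^ 2) * T := mul_comm _ _

end Pool.Agent.Y577.PA
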